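import Pool.Agent.Helper99.WP.GoalsW

/-!
# WP, packet FPR: probability that given arrows are right
-/

open Finset

namespace Pool.Agent.Helper24.WP

open Pool.Agent.Helper99.WP Pool.Agent.Helper99.ERW

/-- Earlier times at the same site have a smaller count. -/
theorem cnt_lt {V : Type*} [DecidableEq V] (π : ℕ → V) {j k : ℕ} (hjk : j < k) (h : π j = π k) :
    cnt π j < cnt π k := by
  unfold cnt
  apply Finset.card_lt_card
  rw [Finset.ssubset_iff_of_subset]
  · refine ⟨j, ?_, ?_⟩
    · simp [hjk, h]
    · simp
  · intro r hr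
    simp only [Finset.mem_filter, Finset.mem_range] at hr ⊢
    exact ⟨lt_trans hr.1 hjk, hr.2.trans h⟩

theorem pair_inj {V : Type*} [DecidableEq V] (π : ℕ → V) {j k : ℕ} (h : π j = π k)
    (hc : cnt π j = cnt π k) : j = k := by
  rcases lt_trichotomy j k with hjk | hjk | hjk
  · exact absurd hc (cnt_lt π hjk h).ne
  · exact hjk
  · exact absurd hc.symm (cnt_lt π hjk h.symm).ne

theorem FPR : FPR_stmt := by
  classical
  intro V _ _ W N π m hW
  by_cases hN : ∀ k < m, cnt π k < N
  swap
  · rw [if_neg hN]
    apply Finset.sum_eq_zero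
    intro a _
    rw [if_neg, mul_zero]
    intro h
    apply hN
    intro k hk
    by_contra hc
    have h1 := h k hk
    unfold Helper99.WP.ext at h1
    rw [dif_neg hc] at h1
    exact absurd h1 (by simp)
  rw [if_pos hN]
  -- the factors
  set F : V → ℕ → Option V → ℝ := fun y k c =>
    W y k c * if ∀ j < m, π j = y → cnt π j = k → c = some (π (j + 1)) then 1 else 0 with hF
  have hterm : ∀ a : V → Fin N → Option V, (prb W N a *
      if ∀ k < m, ext a (π k) (cnt π k) = some (π (k + 1)) then (1 : ℝ) else 0) =
      ∏ y, ∏ k : Fin N, F y k (a y k) := by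
    intro a
    simp only [hF, Finset.prod_mul_distrib]
    unfold prb
    congr 1
    by_cases hE : ∀ k < m, ext a (π k) (cnt π k) = some (π (k + 1))
    · rw [if_pos hE]
      symm
      apply Finset.prod_eq_one
      intro y _
      apply Finset.prod_eq_one
      intro k _
      rw [if_pos]
      intro j hj hy hk
      have h1 := hE j hj
      unfold Helper99.WP.ext at h1
      rw [dif_pos (hN j hj)] at h1
      rw [← h1]
      subst hy
      congr 1
      exact Fin.ext hk.symm
    · rw [if_neg hE]
      symm
      push Not at hE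
      obtain ⟨j, hj, hne⟩ := hE
      apply Finset.prod_eq_zero (Finset.mem_univ (π j))
      apply Finset.prod_eq_zero (Finset.mem_univ (⟨cnt π j, hN j hj⟩ : Fin N))
      rw [if_neg]
      intro h
      apply hne
      have h1 := h j hj rfl rfl
      unfold Helper99.WP.ext
      rw [dif_pos (hN j hj)]
      exact h1
  rw [Finset.sum_congr rfl (fun a _ => hterm a)]
  have hswap : (∑ a : V → Fin N → Option V, ∏ y, ∏ k : Fin N, F y k (a y k)) =
      ∏ y, ∏ k : Fin N, ∑ c, F y k c := by
    have h1 : ∀ y, (∏ k : Fin N, ∑ c, F y k c) = ∑ b : Fin N → Option V, ∏ k : Fin N, F y k (b k) := by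
      intro y
      rw [Finset.prod_univ_sum, Fintype.piFinset_univ]
    rw [Finset.prod_congr rfl (fun y _ => h1 y), Finset.prod_univ_sum, Fintype.piFinset_univ]
  rw [hswap]
  have hrange : ∀ y, (∏ k : Fin N, ∑ c, F y k c) = ∏ k ∈ Finset.range N, ∑ c, F y k c := by
    intro y
    rw [Finset.prod_range]
  rw [Finset.prod_congr rfl (fun y _ => hrange y), ← Finset.prod_product'
    (Finset.univ : Finset V) (Finset.range N) (fun y k => ∑ c, F y k c)]
  have himg : (Finset.range m).image (fun j => (π j, cnt π j)) ⊆
      (Finset.univ : Finset V) ×ˢ (Finset.range N) := by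
    intro p hp
    rw [Finset.mem_image] at hp
    obtain ⟨j, hj, rfl⟩ := hp
    rw [Finset.mem_product]
    exact ⟨Finset.mem_univ _, Finset.mem_range.mpr (hN j (Finset.mem_range.mp hj))⟩
  rw [← Finset.prod_subset himg]
  · rw [Finset.prod_image]
    · apply Finset.prod_congr rfl
      intro j hj
      rw [Finset.mem_range] at hj
      simp only [hF]
      rw [Finset.sum_eq_single (some (π (j + 1)))]
      · rw [if_pos, mul_one]
        intro i _ hi hc
        rw [pair_inj π hi hc]
      · intro c _ hc
        rw [if_neg, mul_zero]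
        intro h
        exact hc (h j hj rfl rfl)
      · intro h
        exact absurd (Finset.mem_univ _) h
    · intro i _ j _ hij
      simp only [Prod.mk.injEq] at hij
      exact pair_inj π hij.1 hij.2
  · intro p _ hp
    simp only [hF]
    have : ∀ c, (if ∀ j < m, π j = p.1 → cnt π j = p.2 → c = some (π (j + 1)) then (1 : ℝ) else 0)
        = 1 := by
      intro c
      rw [if_pos]
      intro j hj h1 h2
      exfalso
      apply hp
      rw [Finset.mem_image]
      exact ⟨j, Finset.mem_range.mpr hj, Prod.ext h1 h2⟩
    rw [Finset.sum_congr rfl (fun c _ => by rw [this c, mul_one])]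
    exact (hW p.1 p.2).2

end Pool.Agent.Helper24.WP
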